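import Pool.Agent.Q193.FR.Ser

/-!
Linear transvections in degree one extend to automorphisms (helper193).
-/

set_option autoImplicit false

open Finset Filter Topology

namespace Pool.Agent.Q193.FR

/-- There is a family of graded automorphisms which in degree one are `g ↦ g + c λ(g) e`. -/
theorem aut_ex (lam : PS →ₗ[ℂ] ℂ) (e : PS) (he : e ∈ Hm 1) (h0 : lam e = 0) :
    ∃ th : ℂ → ℕ → PS → PS, (∀ c n g, g ∈ Hm n → th c n g ∈ Hm n) ∧
      (∀ c n f g, f ∈ Hm n → g ∈ Hm n → th c n (f + g) = th c n f + th c n g) ∧
      (∀ c a, th c 0 (algebraMap ℂ PS a) = algebraMap ℂ PS a) ∧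
      (∀ c i j f g, f ∈ Hm i → g ∈ Hm j → th c (i + j) (f * g) = th c i f * th c j g) ∧
      (∀ c n g, g ∈ Hm n → th (-c) n (th c n g) = g) ∧
      ∀ c g, g ∈ Hm 1 → th c 1 g = g + (c * lam g) • e := by
  classical
  obtain ⟨J, w, y, hg⟩ := gen_ex (k := ℂ) Hm
  have hS := surj grad hg
  have hI := inj grad hg alg_inj
  -- the representing polynomials
  let φ : MvPolynomial J ℂ →ₐ[ℂ] PS := MvPolynomial.aeval y
  have hrep : ∀ n g, ∃ F : MvPolynomial J ℂ, g ∈ Hm n →
      MvPolynomial.IsWeightedHomogeneous w F n ∧ φ F = g := by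
    intro n g
    by_cases h : g ∈ Hm n
    · obtain ⟨F, hF⟩ := hS n g h
      exact ⟨F, fun _ => hF⟩
    · exact ⟨0, fun h' => absurd h' h⟩
  choose rep hrep using hrep
  have hφm : ∀ n (F : MvPolynomial J ℂ), MvPolynomial.IsWeightedHomogeneous w F n → φ F ∈ Hm n :=
    fun n F hF => eval_mem grad hg.mem hF
  have huni : ∀ n (F : MvPolynomial J ℂ), MvPolynomial.IsWeightedHomogeneous w F n →
      rep n (φ F) = F := by
    intro n F hF
    obtain ⟨h1, h2⟩ := hrep n (φ F) (hφm n F hF)
    have h3 := hI n _ (h1.sub hF) (by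
      show φ _ = 0
      rw [map_sub, h2, sub_self])
    exact sub_eq_zero.1 h3
  obtain ⟨E, hE⟩ : ∃ E, E = rep 1 e := ⟨_, rfl⟩
  have hE1 : MvPolynomial.IsWeightedHomogeneous w E 1 := by rw [hE]; exact (hrep 1 e he).1
  have hE2 : φ E = e := by rw [hE]; exact (hrep 1 e he).2
  let T : ℂ → MvPolynomial J ℂ →ₐ[ℂ] MvPolynomial J ℂ := fun c =>
    MvPolynomial.aeval fun j => MvPolynomial.X j + (if w j = 1 then c * lam (y j) else 0) • E
  have hTX : ∀ c j, T c (MvPolynomial.X j) = MvPolynomial.X j +
      (if w j = 1 then c * lam (y j) else 0) • E := fun c j => MvPolynomial.aeval_X _ _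
  have hTw : ∀ c n (F : MvPolynomial J ℂ), MvPolynomial.IsWeightedHomogeneous w F n →
      MvPolynomial.IsWeightedHomogeneous w (T c F) n := by
    intro c n F hF
    -- the polynomial ring is a graded algebra
    have hx : ∀ j, MvPolynomial.IsWeightedHomogeneous w (T c (MvPolynomial.X j)) (w j) := by
      intro j
      rw [hTX]
      refine (MvPolynomial.isWeightedHomogeneous_X ℂ w j).add ?_
      split_ifs with h
      · rw [h]
        exact (MvPolynomial.weightedHomogeneousSubmodule ℂ w 1).smul_mem _ hE1
      · rw [zero_smul]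
        exact MvPolynomial.isWeightedHomogeneous_zero _ _ _
    have hm : ∀ s : J →₀ ℕ, MvPolynomial.IsWeightedHomogeneous w
        (T c (MvPolynomial.monomial s 1)) (Finsupp.weight w s) := by
      intro s
      induction s using Finsupp.induction_linear with
      | zero =>
        rw [map_zero]
        have : (MvPolynomial.monomial (0 : J →₀ ℕ) (1 : ℂ)) = 1 := rfl
        rw [this, map_one]
        exact MvPolynomial.isWeightedHomogeneous_one _ _
      | add s t hs ht =>
        have : MvPolynomial.monomial (s + t) (1 : ℂ)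
            = MvPolynomial.monomial s 1 * MvPolynomial.monomial t 1 := by
          rw [MvPolynomial.monomial_mul, one_mul]
        rw [this, map_mul, map_add]
        exact hs.mul ht
      | single j n =>
        rw [Finsupp.weight_single, ← MvPolynomial.X_pow_eq_monomial, map_pow]
        exact (hx j).pow n
    rw [F.as_sum, map_sum]
    refine MvPolynomial.IsWeightedHomogeneous.sum _ _ _ fun s hs => ?_
    have h1 : Finsupp.weight w s = n := hF (MvPolynomial.mem_support_iff.1 hs)
    have h2 : MvPolynomial.monomial s (MvPolynomial.coeff s F)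
        = MvPolynomial.coeff s F • MvPolynomial.monomial s (1 : ℂ) := by
      rw [MvPolynomial.smul_monomial, smul_eq_mul, mul_one]
    rw [h2, map_smul, ← h1]
    exact (MvPolynomial.weightedHomogeneousSubmodule ℂ w _).smul_mem _ (hm s)
  -- degree one
  have hT1 : ∀ c (F : MvPolynomial J ℂ), MvPolynomial.IsWeightedHomogeneous w F 1 →
      T c F = F + (c * lam (φ F)) • E := by
    intro c F hF
    refine MvPolynomial.IsWeightedHomogeneous.induction_on
      (motive := fun F _ => T c F = F + (c * lam (φ F)) • E) ?_ ?_ ?_ hF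
    · rw [map_zero, map_zero, map_zero, mul_zero, zero_smul, add_zero]
    · intro p q _ _ hp hq
      rw [map_add, hp, hq, map_add, map_add, mul_add, add_smul]
      abel
    · intro s r hs
      obtain ⟨j, hj⟩ : ∃ j, s j ≠ 0 := by
        by_contra hcc
        push Not at hcc
        rw [show s = 0 from Finsupp.ext hcc, map_zero] at hs
        omega
      have h1 := Finsupp.weight_sub_single_add (w := w) hj
      have h2 := hg.pos j
      have h3 : s - Finsupp.single j 1 = 0 := by
        ext l
        by_contra hcc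
        have h4 := Finsupp.le_weight_of_ne_zero' w hcc
        have := hg.pos l
        omega
      have h4 : s = Finsupp.single j 1 := by
        rw [← Finsupp.sub_add_single_one_cancel hj, h3, zero_add]
      have hwj : w j = 1 := by omega
      have h5 : MvPolynomial.monomial s r = r • (MvPolynomial.X j : MvPolynomial J ℂ) := by
        rw [h4, MvPolynomial.X, MvPolynomial.smul_monomial, smul_eq_mul, mul_one]
      have h6 : φ (MvPolynomial.X j) = y j := MvPolynomial.aeval_X _ _
      rw [h5, map_smul, hTX, if_pos hwj, map_smul, h6, map_smul, smul_add, smul_smul, smul_eq_mul]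
      congr 2
      ring
  have hTE : ∀ c, T c E = E := by
    intro c
    rw [hT1 c E hE1, hE2, h0, mul_zero, zero_smul, add_zero]
  have hTT : ∀ c F, T (-c) (T c F) = F := by
    intro c F
    have h1 : (T (-c)).comp (T c) = AlgHom.id ℂ _ := by
      apply MvPolynomial.algHom_ext
      intro j
      rw [AlgHom.comp_apply, hTX, map_add, map_smul, hTE, hTX, AlgHom.id_apply, add_assoc,
        ← add_smul]
      have : (if w j = 1 then -c * lam (y j) else 0) + (if w j = 1 then c * lam (y j) else 0) = 0 := by
        split_ifs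
        · ring
        · ring
      rw [this, zero_smul, add_zero]
    exact DFunLike.congr_fun h1 F
  refine ⟨fun c n g => φ (T c (rep n g)), ?_, ?_, ?_, ?_, ?_, ?_⟩
  · intro c n g hgn
    exact hφm n _ (hTw c n _ (hrep n g hgn).1)
  · intro c n f g hf hgn
    show φ (T c (rep n (f + g))) = φ (T c (rep n f)) + φ (T c (rep n g))
    obtain ⟨h1, h2⟩ := hrep n f hf
    obtain ⟨h3, h4⟩ := hrep n g hgn
    have : rep n (f + g) = rep n f + rep n g := by
      rw [← huni n _ (h1.add h3), map_add, h2, h4]
    rw [this, map_add, map_add]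
  · intro c a
    show φ (T c (rep 0 (algebraMap ℂ PS a))) = algebraMap ℂ PS a
    have h1 : algebraMap ℂ PS a = φ (MvPolynomial.C a) := (MvPolynomial.aeval_C _ _).symm
    have h2 : rep 0 (algebraMap ℂ PS a) = MvPolynomial.C a := by
      rw [h1]
      exact huni 0 _ (MvPolynomial.isWeightedHomogeneous_C w a)
    have h3 : T c (MvPolynomial.C a) = MvPolynomial.C a := MvPolynomial.aeval_C _ _
    rw [h2, h3, h1]
  · intro c i j f g hf hgn
    show φ (T c (rep (i + j) (f * g))) = φ (T c (rep i f)) * φ (T c (rep j g))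
    obtain ⟨h1, h2⟩ := hrep i f hf
    obtain ⟨h3, h4⟩ := hrep j g hgn
    have : rep (i + j) (f * g) = rep i f * rep j g := by
      rw [← huni (i + j) _ (h1.mul h3), map_mul, h2, h4]
    rw [this, map_mul, map_mul]
  · intro c n g hgn
    show φ (T (-c) (rep n (φ (T c (rep n g))))) = g
    obtain ⟨h1, h2⟩ := hrep n g hgn
    rw [huni n _ (hTw c n _ h1), hTT, h2]
  · intro c g hgn
    show φ (T c (rep 1 g)) = g + (c * lam g) • e
    obtain ⟨h1, h2⟩ := hrep 1 g hgn
    rw [hT1 c _ h1, map_add, map_smul, hE2, h2]

end Pool.Agent.Q193.FR
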