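import Pool.Agent.Q193.FR.Aut

/-!
Frechet algebra topologies (helper193).
-/

set_option autoImplicit false

open Finset Filter Topology

namespace Pool.Agent.Q193.FR

/-- `τ` is a Frechet algebra topology: it is given by an increasing sequence of submultiplicative
seminorms which separates the points and for which the algebra is complete. -/
def IsFrechetAlgebra {A : Type} [CommRing A] [Algebra ℂ A] (τ : TopologicalSpace A) : Prop :=
  ∃ p : ℕ → Seminorm ℂ A, Monotone p ∧ (∀ m a b, p m (a * b) ≤ p m a * p m b) ∧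
    WithSeminorms (topology := τ) (p : SeminormFamily ℂ A ℕ) ∧ (∀ a, (∀ m, p m a = 0) → a = 0) ∧
    ∀ s : ℕ → A, (∀ m, ∀ ε : ℝ, 0 < ε → ∃ N, ∀ i ≥ N, ∀ j ≥ N, p m (s i - s j) < ε) →
      ∃ a, ∀ m, Tendsto (fun i => p m (s i - a)) atTop (𝓝 0)

/-- The properties of the seminorms. -/
structure FS {A : Type} [CommRing A] [Algebra ℂ A] (p : ℕ → Seminorm ℂ A) : Prop where
  mono : Monotone p
  mul : ∀ m a b, p m (a * b) ≤ p m a * p m b
  sep : ∀ a, (∀ m, p m a = 0) → a = 0
  compl : ∀ s : ℕ → A, (∀ m, ∀ ε : ℝ, 0 < ε → ∃ N, ∀ i ≥ N, ∀ j ≥ N, p m (s i - s j) < ε) →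
      ∃ a, ∀ m, Tendsto (fun i => p m (s i - a)) atTop (𝓝 0)

/-- The topology of a sequence of seminorms. -/
@[reducible] noncomputable def topo {A : Type} [CommRing A] [Algebra ℂ A] (p : ℕ → Seminorm ℂ A) : TopologicalSpace A :=
  (SeminormFamily.moduleFilterBasis (p : SeminormFamily ℂ A ℕ)).topology

lemma topo_with {A : Type} [CommRing A] [Algebra ℂ A] (p : ℕ → Seminorm ℂ A) :
    WithSeminorms (topology := topo p) (p : SeminormFamily ℂ A ℕ) :=
  WithSeminorms.mk (topology := topo p) rfl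

lemma FS.frechet {A : Type} [CommRing A] [Algebra ℂ A] {p : ℕ → Seminorm ℂ A} (h : FS p) :
    IsFrechetAlgebra (topo p) := ⟨p, h.mono, h.mul, topo_with p, h.sep, h.compl⟩

/-- Transport along an automorphism. -/
lemma FS.comp {A : Type} [CommRing A] [Algebra ℂ A] {p : ℕ → Seminorm ℂ A} (h : FS p)
    (Θ : A ≃ₐ[ℂ] A) : FS fun m => (p m).comp Θ.toLinearMap := by
  refine ⟨fun i j hij a => h.mono hij (Θ a), fun m a b => ?_, fun a ha => ?_, fun s hs => ?_⟩
  · show p m (Θ (a * b)) ≤ p m (Θ a) * p m (Θ b)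
    rw [map_mul]
    exact h.mul m _ _
  · have := h.sep (Θ a) ha
    exact (map_eq_zero_iff Θ Θ.injective).1 this
  · obtain ⟨b, hb⟩ := h.compl (fun i => Θ (s i)) (by
      intro m ε hε
      obtain ⟨N, hN⟩ := hs m ε hε
      refine ⟨N, fun i hi j hj => ?_⟩
      have := hN i hi j hj
      rw [← map_sub]
      exact this)
    refine ⟨Θ.symm b, fun m => ?_⟩
    have h1 : ∀ i, (p m).comp Θ.toLinearMap (s i - Θ.symm b) = p m (Θ (s i) - b) := by
      intro i
      show p m (Θ (s i - Θ.symm b)) = _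
      rw [map_sub, AlgEquiv.apply_symm_apply]
    simp only [h1]
    exact hb m

open MvPowerSeries

/-- The power series all of whose homogeneous components are absolutely summable. -/
noncomputable def AA : Subalgebra ℂ PS where
  carrier := {f | ∀ n, Sm (hc n f)}
  mul_mem' := by
    intro f g hf hg n
    rw [hc_mul]
    have : ∀ s : Finset (ℕ × ℕ), Sm (∑ p ∈ s, hc p.1 f * hc p.2 g) := by
      intro s
      induction s using Finset.induction_on with
      | empty =>
        rw [Finset.sum_empty]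
        exact (Hm 0).zero_mem.2
      | insert a s ha ih =>
        rw [Finset.sum_insert ha]
        exact ((hf _).mul (hg _)).add ih
    exact this _
  add_mem' := by
    intro f g hf hg n
    rw [map_add]
    exact (hf n).add (hg n)
  algebraMap_mem' := by
    classical
    intro a n
    refine Sm.of_fin (s := {0}) fun r hr => ?_
    rw [coeff_hc, show algebraMap ℂ PS a = C a from rfl, coeff_C, if_neg (show r ≠ 0 by
      intro h
      exact hr (by rw [h]; exact mem_singleton_self _)), ite_self]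

lemma hc_hc (m n : ℕ) (f : PS) : hc m (hc n f) = if n = m then hc n f else 0 := by
  ext r
  rw [coeff_hc, coeff_hc]
  by_cases h : n = m
  · subst h
    rw [if_pos rfl, coeff_hc]
    split_ifs <;> rfl
  · rw [if_neg h, map_zero]
    by_cases h1 : r.degree = m
    · rw [if_pos h1, if_neg (by omega)]
    · rw [if_neg h1]

lemma hc_mem (f : AA) (n : ℕ) : hc n f.1 ∈ Hm n :=
  ⟨by rw [hc_hc, if_pos rfl], f.2 n⟩

lemma mem_AA_of_Hm {n : ℕ} {f : PS} (h : f ∈ Hm n) : f ∈ AA := by
  intro m
  rw [hc_of_mem h]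
  split_ifs
  · exact h.2
  · exact (Hm 0).zero_mem.2

/-- The seminorms. -/
noncomputable def pp (m : ℕ) : Seminorm ℂ AA :=
  Seminorm.of (fun f => ∑ n ∈ range (m + 1), nrm (hc n f.1))
    (by
      intro f g
      rw [← Finset.sum_add_distrib]
      refine Finset.sum_le_sum fun n _ => ?_
      rw [show ((f + g : AA) : PS) = f.1 + g.1 from rfl, map_add]
      exact nrm_add (f.2 n) (g.2 n))
    (by
      intro a f
      rw [Finset.mul_sum]
      refine Finset.sum_congr rfl fun n _ => ?_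
      rw [show ((a • f : AA) : PS) = a • f.1 from rfl, map_smul, nrm_smul])

lemma pp_apply (m : ℕ) (f : AA) : pp m f = ∑ n ∈ range (m + 1), nrm (hc n f.1) := rfl

lemma nrm_le_pp {m n : ℕ} (h : n ≤ m) (f : AA) : nrm (hc n f.1) ≤ pp m f := by
  rw [pp_apply]
  exact Finset.single_le_sum (f := fun n => nrm (hc n f.1)) (fun i _ => nrm_nn _)
    (Finset.mem_range.2 (by omega))

lemma coeff_le_nrm {f : PS} (hf : Sm f) (r : ℕ →₀ ℕ) : ‖coeff r f‖ ≤ nrm f :=
  hf.le_tsum r fun _ _ => norm_nonneg _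

lemma coeff_le_pp (f : AA) (r : ℕ →₀ ℕ) : ‖coeff r f.1‖ ≤ pp r.degree f := by
  refine le_trans ?_ (nrm_le_pp le_rfl f)
  refine le_trans (le_of_eq ?_) (coeff_le_nrm (f.2 _) r)
  rw [coeff_hc, if_pos rfl]

lemma nrm_sum_le {ι : Type} (s : Finset ι) (g : ι → PS) (h : ∀ i ∈ s, Sm (g i)) :
    Sm (∑ i ∈ s, g i) ∧ nrm (∑ i ∈ s, g i) ≤ ∑ i ∈ s, nrm (g i) := by
  classical
  induction s using Finset.induction_on with
  | empty =>
    rw [Finset.sum_empty, Finset.sum_empty]
    refine ⟨(Hm 0).zero_mem.2, ?_⟩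
    unfold nrm
    simp
  | insert a s ha ih =>
    obtain ⟨h1, h2⟩ := ih fun i hi => h i (Finset.mem_insert_of_mem hi)
    have h3 := h a (Finset.mem_insert_self _ _)
    rw [Finset.sum_insert ha, Finset.sum_insert ha]
    exact ⟨h3.add h1, (nrm_add h3 h1).trans (by linarith)⟩

theorem fs_pp : FS pp := by
  classical
  refine ⟨?_, ?_, ?_, ?_⟩
  · intro i j hij f
    show pp i f ≤ pp j f
    rw [pp_apply, pp_apply]
    exact Finset.sum_le_sum_of_subset_of_nonneg (Finset.range_mono (by omega))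
      fun n _ _ => nrm_nn _
  · intro m f g
    rw [pp_apply, pp_apply, pp_apply, Finset.sum_mul_sum]
    have h1 : ∀ n, nrm (hc n ((f * g : AA) : PS))
        ≤ ∑ p ∈ antidiagonal n, nrm (hc p.1 f.1) * nrm (hc p.2 g.1) := by
      intro n
      rw [show ((f * g : AA) : PS) = f.1 * g.1 from rfl, hc_mul]
      refine (nrm_sum_le _ _ fun p _ => (f.2 _).mul (g.2 _)).2.trans ?_
      exact Finset.sum_le_sum fun p _ => nrm_mul (f.2 _) (g.2 _)
    refine (Finset.sum_le_sum fun n _ => h1 n).trans ?_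
    rw [Finset.sum_sigma', ← Finset.sum_product']
    have hnn : ∀ p : ℕ × ℕ, 0 ≤ nrm (hc p.1 f.1) * nrm (hc p.2 g.1) := fun p =>
      mul_nonneg (nrm_nn _) (nrm_nn _)
    have hinj : Set.InjOn (fun x : (_ : ℕ) × ℕ × ℕ => x.2)
        ((range (m + 1)).sigma fun n => antidiagonal n : Finset ((_ : ℕ) × ℕ × ℕ)) := by
      rintro ⟨a, b⟩ h1 ⟨c, d⟩ h2 h3
      have h1' := mem_antidiagonal.1 (Finset.mem_sigma.1 (Finset.mem_coe.1 h1)).2
      have h2' := mem_antidiagonal.1 (Finset.mem_sigma.1 (Finset.mem_coe.1 h2)).2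
      simp only at h1' h2' h3
      subst h3
      rw [← h1', ← h2']
    rw [← Finset.sum_image (f := fun p : ℕ × ℕ => nrm (hc p.1 f.1) * nrm (hc p.2 g.1)) hinj]
    refine Finset.sum_le_sum_of_subset_of_nonneg ?_ fun p _ _ => hnn p
    intro p hp
    obtain ⟨⟨n, q⟩, h1, rfl⟩ := Finset.mem_image.1 hp
    obtain ⟨h2, h3⟩ := Finset.mem_sigma.1 h1
    have h2' := Finset.mem_range.1 h2
    have h3' := mem_antidiagonal.1 h3
    simp only at h2' h3'
    exact Finset.mem_product.2 ⟨Finset.mem_range.2 (by show q.1 < _; omega),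
      Finset.mem_range.2 (by show q.2 < _; omega)⟩
  · intro f hf
    apply Subtype.ext
    show f.1 = 0
    ext r
    have h1 := coeff_le_pp f r
    rw [hf, norm_le_zero_iff] at h1
    rw [h1, map_zero]
  · intro s hs
    -- the limit of the coefficients
    have hlim : ∀ r, ∃ a, Tendsto (fun i => coeff r (s i).1) atTop (𝓝 a) := by
      intro r
      apply cauchySeq_tendsto_of_complete
      rw [Metric.cauchySeq_iff]
      intro ε hε
      obtain ⟨N, hN⟩ := hs r.degree ε hε
      refine ⟨N, fun i hi j hj => ?_⟩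
      rw [dist_eq_norm, ← map_sub]
      exact (coeff_le_pp (s i - s j) r).trans_lt (hN i hi j hj)
    choose a ha using hlim
    -- the estimate of the components
    obtain ⟨b, hb⟩ : ∃ b : PS, ∀ r, coeff r b = a r := ⟨fun r => a r, fun r => rfl⟩
    have key : ∀ n, ∀ ε : ℝ, 0 < ε → ∃ N, ∀ i ≥ N,
        Sm (hc n ((s i).1 - b)) ∧ nrm (hc n ((s i).1 - b)) ≤ ε := by
      intro n ε hε
      obtain ⟨N, hN⟩ := hs n ε hε
      refine ⟨N, fun i hi => ?_⟩
      have h1 : ∀ t : Finset (ℕ →₀ ℕ), ∑ r ∈ t, ‖coeff r (hc n ((s i).1 - b))‖ ≤ ε := by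
        intro t
        have h2 : Tendsto (fun j => ∑ r ∈ t, ‖coeff r (hc n ((s i).1 - (s j).1))‖) atTop
            (𝓝 (∑ r ∈ t, ‖coeff r (hc n ((s i).1 - b))‖)) := by
          refine tendsto_finsetSum _ fun r _ => ?_
          simp only [coeff_hc]
          split_ifs with h
          · simp only [map_sub, hb]
            exact (tendsto_const_nhds.sub (ha r)).norm
          · exact tendsto_const_nhds
        refine le_of_tendsto h2 ?_
        filter_upwards [eventually_ge_atTop N] with j hj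
        have h3 := hN i hi j hj
        have h4 := nrm_le_pp le_rfl (s i - s j) (n := n)
        have h5 : Sm (hc n ((s i).1 - (s j).1)) := (s i - s j).2 n
        exact ((h5.sum_le_tsum t fun _ _ => norm_nonneg _).trans h4).trans h3.le
      exact ⟨summable_of_sum_le (fun _ => norm_nonneg _) h1,
        Real.tsum_le_of_sum_le (fun _ => norm_nonneg _) h1⟩
    have hbA : b ∈ AA := by
      intro n
      obtain ⟨N, hN⟩ := key n 1 one_pos
      have h1 := (hN N le_rfl).1
      have h2 : hc n b = hc n (s N).1 + (-1 : ℂ) • hc n ((s N).1 - b) := by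
        rw [map_sub]
        module
      rw [h2]
      exact ((s N).2 n).add (h1.smul _)
    refine ⟨⟨b, hbA⟩, fun m => ?_⟩
    rw [show (0 : ℝ) = ∑ n ∈ range (m + 1), 0 by simp]
    show Tendsto (fun i => ∑ n ∈ range (m + 1), nrm (hc n ((s i).1 - b))) atTop _
    refine tendsto_finsetSum _ fun n _ => ?_
    rw [Metric.tendsto_atTop]
    intro ε hε
    obtain ⟨N, hN⟩ := key n (ε / 2) (by linarith)
    refine ⟨N, fun i hi => ?_⟩
    rw [Real.dist_eq, sub_zero, abs_of_nonneg (nrm_nn _)]
    linarith [(hN i hi).2]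

end Pool.Agent.Q193.FR
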