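import Mathlib

/-!
Graded algebras with enough derivations of degree `-1` are polynomial rings (helper193).
-/

set_option autoImplicit false
set_option linter.unusedSectionVars false

open MvPolynomial

namespace Pool.Agent.Q193.FR

variable {k V : Type} [Field k] [CharZero k] [CommRing V] [Algebra k V]

/-- The pieces `H d` of a graded algebra with derivations `D i` of degree `-1`, which have no common
constants of positive degree. -/
structure Gr (H : ℕ → Submodule k V) {I : Type} (D : I → Derivation k V V) : Prop where
  one : (1 : V) ∈ H 0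
  mul : ∀ {i j : ℕ} {f g : V}, f ∈ H i → g ∈ H j → f * g ∈ H (i + j)
  zero : ∀ f ∈ H 0, ∃ c : k, f = algebraMap k V c
  der : ∀ i d, ∀ f ∈ H (d + 1), D i f ∈ H d
  ker : ∀ d, ∀ f ∈ H (d + 1), (∀ i, D i f = 0) → f = 0

/-- The decomposable elements of degree `n`. -/
def Dec (H : ℕ → Submodule k V) (n : ℕ) : Submodule k V :=
  Submodule.span k {x | ∃ i j, 1 ≤ i ∧ 1 ≤ j ∧ i + j = n ∧ ∃ f ∈ H i, ∃ g ∈ H j, x = f * g}

/-- A basis of `S` modulo `B`. -/
lemma rel_basis (B S : Submodule k V) :
    ∃ (ι : Type) (v : ι → V), (∀ i, v i ∈ S) ∧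
      (∀ f ∈ S, ∃ g ∈ B, ∃ c : ι →₀ k, f = g + c.sum fun i a => a • v i) ∧
      ∀ c : ι →₀ k, (c.sum fun i a => a • v i) ∈ B → c = 0 := by
  obtain ⟨C, hC⟩ := Submodule.exists_isCompl (B.submoduleOf S)
  let b := Module.Basis.ofVectorSpace k C
  refine ⟨_, fun i => ((b i : C) : S), fun i => ((b i : C) : S).2, ?_, ?_⟩
  · intro f hf
    have h1 : (⟨f, hf⟩ : S) ∈ B.submoduleOf S ⊔ C := by rw [hC.sup_eq_top]; trivial
    obtain ⟨g, hg, c, hc, hgc⟩ := Submodule.mem_sup.1 h1
    refine ⟨g, hg, b.repr ⟨c, hc⟩, ?_⟩
    have h2 := b.linearCombination_repr ⟨c, hc⟩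
    rw [Finsupp.linearCombination_apply] at h2
    have h3 := congrArg (fun x : C => ((x : S) : V)) h2
    simp only [Finsupp.sum, Submodule.coe_sum, Submodule.coe_smul] at h3
    rw [Finsupp.sum, h3]
    exact (congrArg (fun x : S => (x : V)) hgc).symm
  · intro c hc
    have h1 : (((Finsupp.linearCombination k b c : C) : S) : V) = c.sum fun i a => a • (((b i : C) : S) : V) := by
      rw [Finsupp.linearCombination_apply, Finsupp.sum, Finsupp.sum]
      simp only [Submodule.coe_sum, Submodule.coe_smul]
    have h2 : ((Finsupp.linearCombination k b c : C) : S) ∈ B.submoduleOf S := by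
      show (((Finsupp.linearCombination k b c : C) : S) : V) ∈ B
      rw [h1]
      exact hc
    have h3 : ((Finsupp.linearCombination k b c : C) : S) = 0 := by
      have := Submodule.disjoint_def.1 hC.disjoint _ h2 (Finsupp.linearCombination k b c).2
      exact this
    have h4 : Finsupp.linearCombination k b c = 0 := by exact_mod_cast h3
    exact (linearIndependent_iff.1 b.linearIndependent) c h4

/-- Generators of a graded algebra. -/
structure Gen (H : ℕ → Submodule k V) {J : Type} (w : J → ℕ) (y : J → V) : Prop where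
  pos : ∀ j, 1 ≤ w j
  mem : ∀ j, y j ∈ H (w j)
  span : ∀ d, 1 ≤ d → ∀ f ∈ H d, ∃ g ∈ Dec H d, ∃ c : J →₀ k, (∀ j ∈ c.support, w j = d) ∧
    f = g + c.sum fun i a => a • y i
  ind : ∀ d, 1 ≤ d → ∀ c : J →₀ k, (∀ j ∈ c.support, w j = d) →
    (c.sum fun i a => a • y i) ∈ Dec H d → c = 0

lemma gen_ex (H : ℕ → Submodule k V) : ∃ (J : Type) (w : J → ℕ) (y : J → V), Gen H w y := by
  classical
  choose ι v h1 h2 h3 using fun d : ℕ => rel_basis (Dec H (d + 1)) (H (d + 1))
  refine ⟨Σ d, ι d, fun j => j.1 + 1, fun j => v j.1 j.2, ⟨fun j => by simp, fun j => h1 _ _, ?_,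
    ?_⟩⟩
  · intro d hd f hf
    obtain ⟨n, rfl⟩ : ∃ n, d = n + 1 := ⟨d - 1, by omega⟩
    obtain ⟨g, hg, c, hc⟩ := h2 n f hf
    refine ⟨g, hg, c.embDomain ⟨Sigma.mk n, sigma_mk_injective⟩, ?_, ?_⟩
    · intro j hj
      rw [Finsupp.support_embDomain, Finset.mem_map] at hj
      obtain ⟨i, _, rfl⟩ := hj
      rfl
    · rw [hc, Finsupp.sum_embDomain]
      rfl
  · intro d hd c hc hcB
    obtain ⟨n, rfl⟩ : ∃ n, d = n + 1 := ⟨d - 1, by omega⟩
    have hinj : Set.InjOn (Sigma.mk n : ι n → Σ d, ι d) (Sigma.mk n ⁻¹' (c.support : Set (Σ d, ι d))) :=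
      sigma_mk_injective.injOn
    have key : c.comapDomain (Sigma.mk n) hinj = 0 := by
      apply h3 n
      have : ((c.comapDomain (Sigma.mk n) hinj).sum fun i a => a • v n i)
          = c.sum fun i a => a • v i.1 i.2 := by
        refine Finsupp.sum_comapDomain (Sigma.mk n) c (fun i a => a • v i.1 i.2) ?_
        refine ⟨fun i hi => hi, hinj, fun j hj => ?_⟩
        have h4 := hc j hj
        obtain ⟨m, i⟩ := j
        have h5 : m = n := by simpa using h4
        subst h5
        exact ⟨i, hj, rfl⟩
      rw [this]
      exact hcB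
    ext j
    by_contra hj
    have hj' : j ∈ c.support := Finsupp.mem_support_iff.2 hj
    have h4 := hc j hj'
    obtain ⟨m, i⟩ := j
    have h5 : m = n := by simpa using h4
    subst h5
    have h6 := DFunLike.congr_fun key i
    rw [Finsupp.comapDomain_apply] at h6
    exact hj h6

section

variable {H : ℕ → Submodule k V} {I : Type} {D : I → Derivation k V V} {J : Type} {w : J → ℕ}
  {y : J → V}

lemma mon_mem (h : Gr H D) {x : J → V} (hx : ∀ j, x j ∈ H (w j)) (s : J →₀ ℕ) :
    aeval (R := k) x (monomial s 1) ∈ H (Finsupp.weight w s) := by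
  induction s using Finsupp.induction_linear with
  | zero =>
    rw [map_zero]
    have : (monomial (0 : J →₀ ℕ) (1 : k)) = 1 := rfl
    rw [this, map_one]
    exact h.one
  | add s t hs ht =>
    have : monomial (s + t) (1 : k) = monomial s 1 * monomial t 1 := by
      rw [monomial_mul, one_mul]
    rw [this, map_mul, map_add]
    exact h.mul hs ht
  | single j n =>
    rw [Finsupp.weight_single, aeval_monomial, map_one, one_mul,
      Finsupp.prod_single_index (h := fun i k => x i ^ k) (pow_zero _)]
    induction n with
    | zero => rw [pow_zero, zero_smul]; exact h.one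
    | succ n ih =>
      rw [pow_succ, succ_nsmul]
      exact h.mul ih (hx j)

lemma eval_mem (h : Gr H D) {x : J → V} (hx : ∀ j, x j ∈ H (w j)) {d : ℕ} {F : MvPolynomial J k}
    (hF : IsWeightedHomogeneous w F d) : aeval (R := k) x F ∈ H d := by
  rw [F.as_sum, map_sum]
  refine Submodule.sum_mem _ fun s hs => ?_
  have h1 : Finsupp.weight w s = d := hF (mem_support_iff.1 hs)
  have h2 : monomial s (coeff s F) = coeff s F • monomial s (1 : k) := by
    rw [smul_monomial, smul_eq_mul, mul_one]
  rw [h2, map_smul, ← h1]
  exact Submodule.smul_mem _ _ (mon_mem h hx s)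

lemma surj (h : Gr H D) (hg : Gen H w y) : ∀ d, ∀ f ∈ H d, ∃ F : MvPolynomial J k,
    IsWeightedHomogeneous w F d ∧ aeval (R := k) y F = f := by
  intro d
  induction d using Nat.strong_induction_on with
  | _ d ih =>
    intro f hf
    rcases Nat.eq_zero_or_pos d with rfl | hd
    · obtain ⟨c, hc⟩ := h.zero f hf
      exact ⟨C c, isWeightedHomogeneous_C w c, by rw [hc, aeval_C]⟩
    · obtain ⟨g, hgD, c, hcw, hfg⟩ := hg.span d hd f hf
      have h1 : ∀ g ∈ Dec H d, ∃ F : MvPolynomial J k,
          IsWeightedHomogeneous w F d ∧ aeval (R := k) y F = g := by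
        intro g hg
        refine Submodule.span_induction (p := fun g _ => ∃ F : MvPolynomial J k,
          IsWeightedHomogeneous w F d ∧ aeval (R := k) y F = g) ?_ ?_ ?_ ?_ hg
        · rintro x ⟨i, j, hi, hj, hij, f, hf, g, hg, rfl⟩
          obtain ⟨F, hF1, hF2⟩ := ih i (by omega) f hf
          obtain ⟨F', hF3, hF4⟩ := ih j (by omega) g hg
          exact ⟨F * F', hij ▸ hF1.mul hF3, by rw [map_mul, hF2, hF4]⟩
        · exact ⟨0, isWeightedHomogeneous_zero _ _ _, map_zero _⟩
        · rintro x z _ _ ⟨F, hF1, hF2⟩ ⟨F', hF3, hF4⟩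
          exact ⟨F + F', hF1.add hF3, by rw [map_add, hF2, hF4]⟩
        · rintro a x _ ⟨F, hF1, hF2⟩
          exact ⟨a • F, (weightedHomogeneousSubmodule k w d).smul_mem a hF1, by
            rw [map_smul, hF2]⟩
      obtain ⟨F, hF1, hF2⟩ := h1 g hgD
      refine ⟨F + c.sum fun i a => a • X i, hF1.add ?_, ?_⟩
      · refine IsWeightedHomogeneous.sum _ _ _ fun j hj => ?_
        rw [← hcw j hj]
        exact (weightedHomogeneousSubmodule k w (w j)).smul_mem _ (isWeightedHomogeneous_X k w j)
      · rw [map_add, hF2, hfg, Finsupp.sum, Finsupp.sum, map_sum]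
        simp only [map_smul, aeval_X]

/-- Polynomials of weight zero are constants. -/
lemma weight_zero (hw : ∀ j, 1 ≤ w j) {F : MvPolynomial J k} (hF : IsWeightedHomogeneous w F 0) :
    ∃ c, F = C c := by
  classical
  refine ⟨coeff 0 F, ?_⟩
  ext s
  rw [coeff_C]
  split_ifs with h
  · rw [← h]
  · by_contra hs
    have h1 := hF hs
    obtain ⟨j, hj⟩ : ∃ j, s j ≠ 0 := by
      by_contra hc
      push Not at hc
      exact h (Finsupp.ext hc).symm
    have h2 := Finsupp.le_weight_of_ne_zero' w hj
    have h3 := hw j
    omega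

/-- The lift of the derivation `D i` to the polynomials. -/
lemma lift_ex (h : Gr H D) (hg : Gen H w y) : ∃ G : I → J → MvPolynomial J k,
    (∀ i j, IsWeightedHomogeneous w (G i j) (w j - 1)) ∧
    ∀ i j, aeval (R := k) y (G i j) = D i (y j) := by
  have h1 : ∀ i j, ∃ F : MvPolynomial J k, IsWeightedHomogeneous w F (w j - 1) ∧
      aeval (R := k) y F = D i (y j) := by
    intro i j
    apply surj h hg
    apply h.der
    have := hg.pos j
    rw [show w j - 1 + 1 = w j by omega]
    exact hg.mem j
  choose G h2 h3 using h1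
  exact ⟨G, h2, h3⟩

lemma lift_comm {G : I → J → MvPolynomial J k} (hG : ∀ i j, aeval (R := k) y (G i j) = D i (y j))
    (i : I) (F : MvPolynomial J k) :
    aeval (R := k) y (mkDerivation k (G i) F) = D i (aeval (R := k) y F) := by
  induction F using MvPolynomial.induction_on with
  | C a => rw [derivation_C, map_zero, aeval_C, Derivation.map_algebraMap]
  | add p q hp hq => rw [map_add, map_add, map_add, map_add, hp, hq]
  | mul_X p j hp =>
    rw [Derivation.leibniz, map_add, map_mul, Derivation.leibniz, smul_eq_mul, smul_eq_mul, map_mul,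
      map_mul, hp, mkDerivation_X, hG, aeval_X, smul_eq_mul, smul_eq_mul]

lemma lift_wt (hw : ∀ j, 1 ≤ w j) {G : I → J → MvPolynomial J k}
    (hG : ∀ i j, IsWeightedHomogeneous w (G i j) (w j - 1)) (i : I) {d : ℕ} {F : MvPolynomial J k}
    (hF : IsWeightedHomogeneous w F (d + 1)) :
    IsWeightedHomogeneous w (mkDerivation k (G i) F) d := by
  rw [F.as_sum, map_sum]
  refine IsWeightedHomogeneous.sum _ _ _ fun s hs => ?_
  have h1 : Finsupp.weight w s = d + 1 := hF (mem_support_iff.1 hs)
  rw [mkDerivation_monomial]
  refine (weightedHomogeneousSubmodule k w d).smul_mem _ ?_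
  refine IsWeightedHomogeneous.sum _ _ _ fun j hj => ?_
  have hj' : s j ≠ 0 := Finsupp.mem_support_iff.1 hj
  have h2 := Finsupp.weight_sub_single_add (w := w) hj'
  have h3 := hw j
  show IsWeightedHomogeneous w (monomial (s - Finsupp.single j 1) ((s j : ℕ) : k) * G i j) d
  have h4 : Finsupp.weight w (s - Finsupp.single j 1) + (w j - 1) = d := by omega
  rw [← h4]
  exact (isWeightedHomogeneous_monomial w _ _ rfl).mul (hG i j)

/-- Polynomials of positive weight without derivatives are zero. -/
lemma no_const (h : Gr H D) (hg : Gen H w y) {G : I → J → MvPolynomial J k}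
    (hG1 : ∀ i j, IsWeightedHomogeneous w (G i j) (w j - 1))
    (hG2 : ∀ i j, aeval (R := k) y (G i j) = D i (y j)) :
    ∀ d, 1 ≤ d → ∀ F : MvPolynomial J k, IsWeightedHomogeneous w F d →
      (∀ i, mkDerivation k (G i) F = 0) → F = 0 := by
  classical
  intro d
  induction d using Nat.strong_induction_on with
  | _ d ih =>
    intro hd F hF hF0
    by_contra hne
    -- a variable of maximal weight
    have hvn : F.vars.Nonempty := by
      obtain ⟨s, hs⟩ : ∃ s, coeff s F ≠ 0 := by
        by_contra hc
        push Not at hc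
        exact hne (MvPolynomial.ext _ _ fun s => by rw [hc s, coeff_zero])
      have h1 := hF hs
      obtain ⟨j, hj⟩ : ∃ j, s j ≠ 0 := by
        by_contra hc
        push Not at hc
        have : s = 0 := Finsupp.ext hc
        rw [this, map_zero] at h1
        omega
      exact ⟨j, (mem_vars_iff_mem_support j).2 ⟨s, mem_support_iff.2 hs, Finsupp.mem_support_iff.2 hj⟩⟩
    obtain ⟨j₀, hj₀, hmax⟩ := F.vars.exists_max_image w hvn
    obtain ⟨s₀, hs₀, hsj⟩ := (mem_vars_iff_mem_support j₀).1 hj₀
    have hs₀' : coeff s₀ F ≠ 0 := mem_support_iff.1 hs₀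
    have hsj' : s₀ j₀ ≠ 0 := Finsupp.mem_support_iff.1 hsj
    have hwle : w j₀ ≤ d := by
      rw [← hF hs₀']
      exact Finsupp.le_weight_of_ne_zero' w hsj'
    -- the partial derivative commutes
    have hcomm : ∀ i, mkDerivation k (G i) (pderiv j₀ F) = 0 := by
      intro i
      have h1 : (⁅mkDerivation k (G i), pderiv j₀⁆ : Derivation k (MvPolynomial J k)
          (MvPolynomial J k)) F = 0 := by
        apply derivation_eq_zero_of_forall_mem_vars
        intro l hl
        rw [Derivation.commutator_apply, mkDerivation_X]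
        have h2 : pderiv j₀ (G i l) = 0 := by
          apply pderiv_eq_zero_of_notMem_vars
          intro hc
          obtain ⟨s, hs, hsl⟩ := (mem_vars_iff_mem_support j₀).1 hc
          have h3 := hG1 i l (mem_support_iff.1 hs)
          have h4 := Finsupp.le_weight_of_ne_zero' w (Finsupp.mem_support_iff.1 hsl)
          have h5 := hmax l hl
          have h6 := hg.pos l
          omega
        have h3 : mkDerivation k (G i) (pderiv j₀ (X l)) = 0 := by
          rw [pderiv_X]
          by_cases hl : j₀ = l
          · subst hl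
            rw [Pi.single_eq_same]
            exact Derivation.map_one_eq_zero _
          · rw [Pi.single_eq_of_ne' hl, map_zero]
        rw [h2, h3, sub_zero]
      rw [Derivation.commutator_apply, hF0 i, map_zero, sub_zero] at h1
      exact h1
    have hpd : pderiv j₀ F ≠ 0 := by
      intro hc
      have h1 := congrArg (coeff (s₀ - Finsupp.single j₀ 1)) hc
      rw [coeff_pderiv, coeff_zero, Finsupp.sub_add_single_one_cancel hsj'] at h1
      have h2 : (((s₀ - Finsupp.single j₀ 1 : J →₀ ℕ) j₀ : k) + 1) ≠ 0 :=
        Nat.cast_add_one_ne_zero _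
      exact (mul_ne_zero hs₀' h2) h1
    have hpw : IsWeightedHomogeneous w (pderiv j₀ F) (d - w j₀) := hF.pderiv (by omega)
    rcases Nat.lt_or_ge (w j₀) d with hlt | hge
    · exact hpd (ih (d - w j₀) (by have := hg.pos j₀; omega) (by omega) _ hpw hcomm)
    · have hwd : w j₀ = d := by omega
      -- the value is zero
      have hφ : aeval (R := k) y F = 0 := by
        obtain ⟨n, rfl⟩ : ∃ n, d = n + 1 := ⟨d - 1, by omega⟩
        apply h.ker n _ (eval_mem h hg.mem hF)
        intro i
        rw [← lift_comm hG2, hF0 i, map_zero]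
      -- the monomials
      have hsingle : ∀ s, Finsupp.weight w s = d → ∀ j, w j = d → s j ≠ 0 →
          s = Finsupp.single j 1 := by
        intro s hs j hj hsj
        have h1 := Finsupp.weight_sub_single_add (w := w) hsj
        have h2 : Finsupp.weight w (s - Finsupp.single j 1) = 0 := by omega
        have h3 : s - Finsupp.single j 1 = 0 := by
          ext l
          by_contra hc
          have h4 := Finsupp.le_weight_of_ne_zero' w hc
          have := hg.pos l
          omega
        rw [← Finsupp.sub_add_single_one_cancel hsj, h3, zero_add]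
      let c : J →₀ k := Finsupp.onFinset F.vars
        (fun j => if w j = d then coeff (Finsupp.single j 1) F else 0) (by
          intro j hj
          by_cases hjd : w j = d
          · rw [if_pos hjd] at hj
            exact (mem_vars_iff_mem_support j).2 ⟨_, mem_support_iff.2 hj, by simp⟩
          · rw [if_neg hjd] at hj
            exact absurd rfl hj)
      have hc : ∀ j, c j = if w j = d then coeff (Finsupp.single j 1) F else 0 := fun j => rfl
      have hcs : ∀ j ∈ c.support, w j = d := by
        intro j hj
        by_contra hjd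
        exact Finsupp.mem_support_iff.1 hj (by rw [hc, if_neg hjd])
      obtain ⟨L, hL⟩ : ∃ L : MvPolynomial J k, L = c.sum fun j a => a • X j := ⟨_, rfl⟩
      have hLv : aeval (R := k) y L = c.sum fun j a => a • y j := by
        rw [hL, Finsupp.sum, map_sum]
        simp only [map_smul, aeval_X]
        rfl
      have hLw : IsWeightedHomogeneous w L d := by
        rw [hL]
        refine IsWeightedHomogeneous.sum _ _ _ fun j hj => ?_
        rw [← hcs j hj]
        exact (weightedHomogeneousSubmodule k w (w j)).smul_mem _ (isWeightedHomogeneous_X k w j)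
      have hLc : ∀ j, w j = d → coeff (Finsupp.single j 1) L = coeff (Finsupp.single j 1) F := by
        intro j hj
        rw [hL, Finsupp.sum, coeff_sum]
        have h1 : ∀ l ∈ c.support, coeff (Finsupp.single j 1) (c l • X l : MvPolynomial J k)
            = if l = j then c l else 0 := by
          intro l _
          rw [coeff_smul, coeff_X]
          by_cases hl : l = j
          · subst hl
            rw [if_pos rfl, if_pos rfl, smul_eq_mul, mul_one]
          · rw [if_neg hl, if_neg, smul_zero]
            intro h2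
            exact hl (Finsupp.single_left_injective one_ne_zero h2)
        rw [Finset.sum_congr rfl h1, Finset.sum_ite_eq']
        split_ifs with h2
        · rw [hc, if_pos hj]
        · rw [Finsupp.notMem_support_iff, hc, if_pos hj] at h2
          exact h2.symm
      -- the rest is decomposable
      have hR : aeval (R := k) y (F - L) ∈ Dec H d := by
        have hRw : IsWeightedHomogeneous w (F - L) d := hF.sub hLw
        rw [(F - L).as_sum, map_sum]
        refine Submodule.sum_mem _ fun s hs => ?_
        have hs1 : coeff s (F - L) ≠ 0 := mem_support_iff.1 hs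
        have hs2 := hRw hs1
        have h2 : monomial s (coeff s (F - L)) = coeff s (F - L) • monomial s (1 : k) := by
          rw [smul_monomial, smul_eq_mul, mul_one]
        rw [h2, map_smul]
        refine Submodule.smul_mem _ _ (Submodule.subset_span ?_)
        obtain ⟨j, hj⟩ : ∃ j, s j ≠ 0 := by
          by_contra hcc
          push Not at hcc
          have : s = 0 := Finsupp.ext hcc
          rw [this, map_zero] at hs2
          omega
        have hjd : w j ≠ d := by
          intro hjd
          have h3 := hsingle s hs2 j hjd hj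
          rw [h3, coeff_sub, hLc j hjd, sub_self] at hs1
          exact hs1 rfl
        have h3 := Finsupp.weight_sub_single_add (w := w) hj
        have h4 := Finsupp.le_weight_of_ne_zero' w hj
        refine ⟨Finsupp.weight w (s - Finsupp.single j 1), w j, by omega, hg.pos j, by omega,
          _, mon_mem h hg.mem _, _, hg.mem j, ?_⟩
        rw [← aeval_X (R := k) y j, ← map_mul]
        congr 1
        rw [X, monomial_mul, one_mul, Finsupp.sub_add_single_one_cancel hj]
      have h5 : c = 0 := by
        apply hg.ind d hd c hcs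
        rw [← hLv]
        have : aeval (R := k) y L = -(aeval (R := k) y (F - L)) := by
          rw [map_sub, hφ, zero_sub, neg_neg]
        rw [this]
        exact Submodule.neg_mem _ hR
      have h6 : c j₀ = 0 := by rw [h5]; rfl
      rw [hc, if_pos hwd] at h6
      have h7 := hsingle s₀ (hF hs₀') j₀ hwd hsj'
      rw [h7] at hs₀'
      exact hs₀' h6

/-- The values of the generators are algebraically independent. -/
theorem inj (h : Gr H D) (hg : Gen H w y) (h0 : Function.Injective (algebraMap k V)) :
    ∀ d, ∀ F : MvPolynomial J k, IsWeightedHomogeneous w F d → aeval (R := k) y F = 0 → F = 0 := by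
  obtain ⟨G, hG1, hG2⟩ := lift_ex h hg
  intro d
  induction d with
  | zero =>
    intro F hF hF0
    obtain ⟨c, rfl⟩ := weight_zero hg.pos hF
    rw [aeval_C] at hF0
    rw [h0 (hF0.trans (map_zero _).symm), map_zero]
  | succ d ih =>
    intro F hF hF0
    refine no_const h hg hG1 hG2 (d + 1) (by omega) F hF fun i => ?_
    apply ih _ (lift_wt hg.pos hG1 i hF)
    rw [lift_comm hG2, hF0, map_zero]

end

end Pool.Agent.Q193.FR
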