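import Pool.Agent.Q193.FR.Fre

/-!
A discontinuous automorphism of a Frechet algebra of power series (helper193).
-/

set_option autoImplicit false

open Finset Filter Topology

namespace Pool.Agent.Q193.FR

open MvPowerSeries

/-- The tails of a series of degree one. -/
noncomputable def vv (i : ℕ) : PS := fun r =>
  if r.degree = 1 ∧ i ≤ Finsupp.weight (fun l : ℕ => l) r then
    (1 / 4 : ℂ) ^ Finsupp.weight (fun l : ℕ => l) r else 0

lemma coeff_vv (i : ℕ) (r : ℕ →₀ ℕ) : coeff r (vv i) =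
    if r.degree = 1 ∧ i ≤ Finsupp.weight (fun l : ℕ => l) r then
    (1 / 4 : ℂ) ^ Finsupp.weight (fun l : ℕ => l) r else 0 := rfl

lemma deg_one {r : ℕ →₀ ℕ} (h : r.degree = 1) : ∃ l, r = Finsupp.single l 1 := by
  obtain ⟨l, hl⟩ : ∃ l, r l ≠ 0 := by
    by_contra hcc
    push Not at hcc
    rw [show r = 0 from Finsupp.ext hcc, map_zero] at h
    omega
  refine ⟨l, ?_⟩
  have h1 := Finsupp.sub_add_single_one_cancel hl
  have h2 : (r - Finsupp.single l 1).degree = 0 := by
    have h3 := congrArg Finsupp.degree h1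
    rw [map_add, Finsupp.degree_single] at h3
    omega
  rw [(Finsupp.degree_eq_zero_iff _).1 h2, zero_add] at h1
  exact h1.symm

lemma wt_single (l : ℕ) : Finsupp.weight (fun l : ℕ => l) (Finsupp.single l 1) = l := by
  rw [Finsupp.weight_single, one_smul]

lemma single_inj : Function.Injective fun l : ℕ => (Finsupp.single l 1 : ℕ →₀ ℕ) :=
  Finsupp.single_left_injective one_ne_zero

lemma vv_sum (i : ℕ) : Sm (vv i) ∧ nrm (vv i) ≤ 2 * (1 / 2) ^ i := by
  have h0 : ∀ r ∉ Set.range fun l : ℕ => (Finsupp.single l 1 : ℕ →₀ ℕ), ‖coeff r (vv i)‖ = 0 := by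
    intro r hr
    rw [coeff_vv, if_neg, norm_zero]
    rintro ⟨h, -⟩
    obtain ⟨l, hl⟩ := deg_one h
    exact hr ⟨l, hl.symm⟩
  have h1 : ∀ l : ℕ, ‖coeff (Finsupp.single l 1) (vv i)‖ ≤ (1 / 2) ^ i * (1 / 2) ^ l := by
    intro l
    rw [coeff_vv, wt_single, deg_single]
    split_ifs with h
    · rw [norm_pow]
      have h2 : ‖(1 / 4 : ℂ)‖ = 1 / 2 * (1 / 2) := by
        rw [norm_div, norm_one, show (4 : ℂ) = ((4 : ℝ) : ℂ) by norm_num, Complex.norm_real]
        norm_num
      rw [h2, mul_pow]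
      gcongr ?_ * _
      exact pow_le_pow_of_le_one (by norm_num) (by norm_num) h.2
    · rw [norm_zero]
      positivity
  have h2 : HasSum (fun l : ℕ => (1 / 2 : ℝ) ^ i * (1 / 2) ^ l) ((1 / 2) ^ i * 2) :=
    hasSum_geometric_two.mul_left _
  have h3 : Summable fun l : ℕ => ‖coeff (Finsupp.single l 1) (vv i)‖ :=
    h2.summable.of_nonneg_of_le (fun _ => norm_nonneg _) h1
  refine ⟨(single_inj.summable_iff h0).1 h3, ?_⟩
  unfold nrm
  have h4 : (∑' r, ‖coeff r (vv i)‖) = ∑' l : ℕ, ‖coeff (Finsupp.single l 1) (vv i)‖ := by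
    symm
    apply single_inj.tsum_eq (f := fun r => ‖coeff r (vv i)‖)
    intro r hr
    by_contra hc
    exact hr (h0 r hc)
  rw [h4, mul_comm 2, ← h2.tsum_eq]
  exact h3.tsum_le_tsum h1 h2.summable

lemma vv_mem (i : ℕ) : vv i ∈ Hm 1 := by
  refine ⟨hom_iff.2 fun r hr => ?_, (vv_sum i).1⟩
  rw [coeff_vv] at hr
  by_contra hc
  rw [if_neg fun h => hc h.1] at hr
  exact hr rfl

lemma vv_succ (i : ℕ) : vv i = vv (i + 1) + (1 / 4 : ℂ) ^ i • (X i : PS) := by
  classical
  ext r
  rw [map_add, coeff_smul, coeff_X, coeff_vv, coeff_vv]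
  by_cases h : r.degree = 1
  · obtain ⟨l, rfl⟩ := deg_one h
    rw [wt_single]
    by_cases hl : l = i
    · subst hl
      rw [if_pos ⟨h, le_rfl⟩, if_neg (by omega), if_pos rfl, mul_one, zero_add]
    · rw [if_neg fun h1 => hl (single_inj h1), mul_zero, add_zero]
      by_cases h1 : i ≤ l
      · rw [if_pos ⟨h, h1⟩, if_pos ⟨h, by omega⟩]
      · rw [if_neg fun h2 => h1 h2.2, if_neg fun h2 => h1 (by omega)]
  · rw [if_neg fun h1 => h h1.1, if_neg fun h1 => h h1.1, if_neg, mul_zero, zero_add]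
    intro h1
    exact h (by rw [h1, deg_single])

/-- A discontinuous linear functional. -/
lemma lam_ex : ∃ lam : PS →ₗ[ℂ] ℂ, (∀ i, lam (X i) = 0) ∧ ∀ i, lam (vv i) = 1 := by
  classical
  have h0 : vv 0 ∉ Submodule.span ℂ (Set.range fun i : ℕ => (X i : PS)) := by
    intro h
    have h1 : ∀ f ∈ Submodule.span ℂ (Set.range fun i : ℕ => (X i : PS)),
        ∃ N, ∀ l ≥ N, coeff (Finsupp.single l 1) f = 0 := by
      intro f hf
      refine Submodule.span_induction (p := fun f _ =>
        ∃ N, ∀ l ≥ N, coeff (Finsupp.single l 1) f = 0) ?_ ?_ ?_ ?_ hf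
      · rintro _ ⟨i, rfl⟩
        refine ⟨i + 1, fun l hl => ?_⟩
        rw [coeff_X, if_neg]
        intro h2
        have := single_inj h2
        omega
      · exact ⟨0, fun l _ => map_zero _⟩
      · rintro f g _ _ ⟨N, hN⟩ ⟨M, hM⟩
        exact ⟨max N M, fun l hl => by
          rw [map_add, hN l (le_trans (le_max_left _ _) hl), hM l (le_trans (le_max_right _ _) hl),
            add_zero]⟩
      · rintro a f _ ⟨N, hN⟩
        exact ⟨N, fun l hl => by rw [coeff_smul, hN l hl, mul_zero]⟩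
    obtain ⟨N, hN⟩ := h1 _ h
    have h2 := hN N le_rfl
    rw [coeff_vv, wt_single, deg_single, if_pos ⟨rfl, Nat.zero_le _⟩] at h2
    exact pow_ne_zero N (by norm_num) h2
  obtain ⟨f, hf, hker⟩ := Submodule.exists_le_ker_of_notMem h0
  have hX : ∀ i, f (X i) = 0 := fun i => hker (Submodule.subset_span ⟨i, rfl⟩)
  refine ⟨(f (vv 0))⁻¹ • f, fun i => ?_, fun i => ?_⟩
  · rw [LinearMap.smul_apply, hX, smul_zero]
  · have h1 : f (vv i) = f (vv 0) := by
      induction i with
      | zero => rfl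
      | succ i ih =>
        rw [← ih, vv_succ i, map_add, map_smul, hX, smul_zero, add_zero]
    rw [LinearMap.smul_apply, h1, smul_eq_mul, inv_mul_cancel₀ hf]

/-- An automorphism which is `g ↦ g + λ(g) X₀` in degree one. -/
lemma theta_ex (lam : PS →ₗ[ℂ] ℂ) (h0 : lam (X 0) = 0) :
    ∃ Θ : AA ≃ₐ[ℂ] AA, ∀ f : AA, hc 1 (Θ f).1 = hc 1 f.1 + lam (hc 1 f.1) • X 0 := by
  obtain ⟨th, h1, h2, h3, h4, h5, h6⟩ := aut_ex lam (X 0) (X_mem 0) h0
  -- the map
  have hex : ∀ (c : ℂ) (f : AA), ∃ g : AA, ∀ n, hc n g.1 = th c n (hc n f.1) := by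
    intro c f
    obtain ⟨g, hg⟩ : ∃ g : PS, ∀ r, coeff r g = coeff r (th c r.degree (hc r.degree f.1)) :=
      ⟨fun r => coeff r (th c r.degree (hc r.degree f.1)), fun r => rfl⟩
    have hgn : ∀ n, hc n g = th c n (hc n f.1) := by
      intro n
      ext r
      rw [coeff_hc, hg]
      by_cases hr : r.degree = n
      · rw [if_pos hr, hr]
      · rw [if_neg hr]
        by_contra hcc
        exact hr (hom_iff.1 (h1 c n _ (hc_mem f n)).1 r (Ne.symm hcc))
    refine ⟨⟨g, fun n => ?_⟩, hgn⟩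
    rw [hgn]
    exact (h1 c n _ (hc_mem f n)).2
  choose M hM using hex
  have hinv : ∀ c f, M (-c) (M c f) = f := by
    intro c f
    apply Subtype.ext
    apply hc_ext
    intro n
    rw [hM, hM]
    exact h5 c n _ (hc_mem f n)
  have hadd : ∀ c f g, M c (f + g) = M c f + M c g := by
    intro c f g
    apply Subtype.ext
    apply hc_ext
    intro n
    rw [hM, show ((f + g : AA) : PS) = f.1 + g.1 from rfl, map_add,
      h2 c n _ _ (hc_mem f n) (hc_mem g n),
      show ((M c f + M c g : AA) : PS) = (M c f).1 + (M c g).1 from rfl, map_add, hM, hM]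
  have hmul : ∀ c f g, M c (f * g) = M c f * M c g := by
    intro c f g
    apply Subtype.ext
    apply hc_ext
    intro n
    rw [hM, show ((f * g : AA) : PS) = f.1 * g.1 from rfl, hc_mul,
      show ((M c f * M c g : AA) : PS) = (M c f).1 * (M c g).1 from rfl, hc_mul]
    have h7 : ∀ s : Finset (ℕ × ℕ), (∀ p ∈ s, p.1 + p.2 = n) →
        (∑ p ∈ s, hc p.1 f.1 * hc p.2 g.1) ∈ Hm n ∧
        th c n (∑ p ∈ s, hc p.1 f.1 * hc p.2 g.1)
          = ∑ p ∈ s, th c n (hc p.1 f.1 * hc p.2 g.1) := by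
      classical
      intro s
      induction s using Finset.induction_on with
      | empty =>
        intro _
        rw [Finset.sum_empty, Finset.sum_empty]
        refine ⟨(Hm n).zero_mem, ?_⟩
        have h8 := h2 c n 0 0 (Hm n).zero_mem (Hm n).zero_mem
        rw [add_zero] at h8
        exact left_eq_add.1 h8
      | insert a s ha ih =>
        intro hs
        obtain ⟨h8, h9⟩ := ih fun p hp => hs p (Finset.mem_insert_of_mem hp)
        have h10 : hc a.1 f.1 * hc a.2 g.1 ∈ Hm n := by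
          rw [← hs a (Finset.mem_insert_self _ _)]
          exact mul_mem_Hm (hc_mem f _) (hc_mem g _)
        rw [Finset.sum_insert ha, Finset.sum_insert ha]
        exact ⟨(Hm n).add_mem h10 h8, by rw [h2 c n _ _ h10 h8, h9]⟩
    rw [(h7 _ fun p hp => mem_antidiagonal.1 hp).2]
    refine Finset.sum_congr rfl fun p hp => ?_
    rw [hM, hM, ← h4 c p.1 p.2 _ _ (hc_mem f _) (hc_mem g _), mem_antidiagonal.1 hp]
  have hcomm : ∀ c (a : ℂ), M c (algebraMap ℂ AA a) = algebraMap ℂ AA a := by
    intro c a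
    have hz : ∀ n, 1 ≤ n → th c n 0 = 0 := by
      intro n _
      have h8 := h2 c n 0 0 (Hm n).zero_mem (Hm n).zero_mem
      rw [add_zero] at h8
      exact left_eq_add.1 h8
    have ha : algebraMap ℂ PS a ∈ Hm 0 := by
      rw [Algebra.algebraMap_eq_smul_one]
      exact (Hm 0).smul_mem a grad.one
    apply Subtype.ext
    apply hc_ext
    intro n
    rw [hM, show ((algebraMap ℂ AA a : AA) : PS) = algebraMap ℂ PS a from rfl, hc_of_mem ha]
    split_ifs with hn
    · subst hn
      exact h3 c a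
    · exact hz n (by omega)
  refine ⟨{ toFun := M 1
            invFun := M (-1)
            left_inv := hinv 1
            right_inv := fun f => by
              have := hinv (-1) f
              rwa [neg_neg] at this
            map_mul' := hmul 1
            map_add' := hadd 1
            commutes' := hcomm 1 }, fun f => ?_⟩
  show hc 1 (M 1 f).1 = _
  rw [hM, h6 1 _ (hc_mem f 1), one_mul]

theorem main : ∃ (A : Subalgebra ℂ PS) (τ₁ τ₂ : TopologicalSpace A), A ≠ ⊤ ∧ (∀ i, X i ∈ A) ∧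
    IsFrechetAlgebra τ₁ ∧ (∀ r, Continuous[τ₁, inferInstance] fun f : A => coeff r (f : PS)) ∧
    IsFrechetAlgebra τ₂ ∧ τ₁ ≠ τ₂ := by
  classical
  obtain ⟨lam, hX, hv⟩ := lam_ex
  obtain ⟨Θ, hΘ⟩ := theta_ex lam (hX 0)
  refine ⟨AA, topo pp, topo fun m => (pp m).comp Θ.toLinearMap, ?_, fun i => mem_AA_of_Hm (X_mem i),
    fs_pp.frechet, ?_, (fs_pp.comp Θ).frechet, ?_⟩
  · -- a proper subalgebra
    intro h
    obtain ⟨g, hg⟩ : ∃ g : PS, ∀ r, coeff r g = 1 := ⟨fun r => 1, fun r => rfl⟩
    have h1 : g ∈ AA := by rw [h]; trivial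
    have h1' : Summable fun r => ‖coeff r (hc 1 g)‖ := h1 1
    have h2 : Summable fun l : ℕ => ‖coeff (Finsupp.single l 1) (hc 1 g)‖ :=
      h1'.comp_injective single_inj
    have h3 : (fun l : ℕ => ‖coeff (Finsupp.single l 1) (hc 1 g)‖) = fun _ => (1 : ℝ) := by
      funext l
      rw [coeff_hc, deg_single, if_pos rfl, hg, norm_one]
    rw [h3] at h2
    have h4 := h2.tendsto_atTop_zero
    exact one_ne_zero (tendsto_nhds_unique tendsto_const_nhds h4)
  · intro r
    let _ := topo pp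
    have hW := topo_with pp
    rw [continuous_iff_continuousAt]
    intro f₀
    rw [ContinuousAt, Metric.tendsto_nhds]
    intro ε hε
    have h1 := (hW.tendsto_nhds (fun f : AA => f) f₀).1 tendsto_id r.degree ε hε
    filter_upwards [h1] with f hf
    rw [dist_eq_norm, ← map_sub]
    exact (coeff_le_pp (f - f₀) r).trans_lt hf
  · intro heq
    let s : ℕ → AA := fun i => ⟨vv (i + 1), mem_AA_of_Hm (vv_mem (i + 1))⟩
    -- convergence in the first topology
    have h1 : @Tendsto ℕ AA s atTop (@nhds AA (topo pp) 0) := by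
      let _ := topo pp
      rw [(topo_with pp).tendsto_nhds s 0]
      intro m ε hε
      have h2 : Tendsto (fun i : ℕ => 2 * (1 / 2 : ℝ) ^ (i + 1)) atTop (𝓝 0) := by
        have := ((tendsto_pow_atTop_nhds_zero_of_lt_one (r := (1 / 2 : ℝ)) (by norm_num)
          (by norm_num)).comp (tendsto_add_atTop_nat 1)).const_mul 2
        rwa [mul_zero] at this
      filter_upwards [h2.eventually_lt_const hε] with i hi
      refine lt_of_le_of_lt ?_ hi
      rw [sub_zero, pp_apply]
      have h3 : ∀ n, nrm (hc n (s i).1) = if 1 = n then nrm (vv (i + 1)) else 0 := by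
        intro n
        show nrm (hc n (vv (i + 1))) = _
        rw [hc_of_mem (vv_mem (i + 1))]
        split_ifs
        · rfl
        · unfold nrm
          simp
      simp only [h3]
      rw [Finset.sum_ite_eq]
      split_ifs
      · exact (vv_sum (i + 1)).2
      · positivity
    rw [heq] at h1
    let _ := topo fun m => (pp m).comp Θ.toLinearMap
    have h2 := ((topo_with fun m => (pp m).comp Θ.toLinearMap).tendsto_nhds s 0).1 h1 1 1 one_pos
    obtain ⟨i, hi⟩ := h2.exists
    rw [sub_zero] at hi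
    have h3 : pp 1 (Θ (s i)) < 1 := hi
    have h4 : ‖coeff (Finsupp.single 0 1) (Θ (s i)).1‖ ≤ pp 1 (Θ (s i)) := by
      have := coeff_le_pp (Θ (s i)) (Finsupp.single 0 1)
      rwa [deg_single] at this
    have h5 : coeff (Finsupp.single 0 1) (Θ (s i)).1 = 1 := by
      have h6 := congrArg (coeff (Finsupp.single 0 1)) (hΘ (s i))
      rw [coeff_hc, deg_single, if_pos rfl] at h6
      rw [h6]
      have h7 : hc 1 (s i).1 = vv (i + 1) := by
        show hc 1 (vv (i + 1)) = _
        exact (vv_mem (i + 1)).1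
      rw [h7, hv, one_smul, map_add, coeff_X, if_pos rfl, coeff_vv, if_neg, zero_add]
      rintro ⟨-, h8⟩
      rw [wt_single] at h8
      omega
    rw [h5, norm_one] at h4
    linarith

end Pool.Agent.Q193.FR
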