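import Pool.Agent.Q193.FR.Gr

/-!
Power series in infinitely many variables with absolutely summable homogeneous components
(helper193).
-/

set_option autoImplicit false

open Finset Filter Topology

namespace Pool.Agent.Q193.FR

abbrev PS : Type := MvPowerSeries ℕ ℂ

open MvPowerSeries

/-- The sum of the moduli of the coefficients. -/
noncomputable def nrm (f : PS) : ℝ := ∑' r, ‖coeff r f‖

/-- The coefficients are absolutely summable. -/
def Sm (f : PS) : Prop := Summable fun r => ‖coeff r f‖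

lemma nrm_nn (f : PS) : 0 ≤ nrm f := tsum_nonneg fun _ => norm_nonneg _

lemma Sm.add {f g : PS} (hf : Sm f) (hg : Sm g) : Sm (f + g) := by
  refine Summable.of_nonneg_of_le (fun r => norm_nonneg _) (fun r => ?_) (Summable.add hf hg)
  rw [map_add]
  exact norm_add_le _ _

lemma Sm.smul {f : PS} (hf : Sm f) (a : ℂ) : Sm (a • f) := by
  have : (fun r => ‖coeff r (a • f)‖) = fun r => ‖a‖ * ‖coeff r f‖ := by
    funext r
    rw [coeff_smul, norm_mul]
  unfold Sm
  rw [this]
  exact Summable.mul_left _ hf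

lemma nrm_add {f g : PS} (hf : Sm f) (hg : Sm g) : nrm (f + g) ≤ nrm f + nrm g := by
  unfold nrm
  rw [← Summable.tsum_add hf hg]
  refine Summable.tsum_le_tsum (fun r => ?_) (hf.add hg) (Summable.add hf hg)
  rw [map_add]
  exact norm_add_le _ _

lemma nrm_smul (f : PS) (a : ℂ) : nrm (a • f) = ‖a‖ * nrm f := by
  unfold nrm
  rw [← tsum_mul_left]
  refine tsum_congr fun r => ?_
  rw [coeff_smul, norm_mul]

lemma coeff_mul_le (f g : PS) (r : ℕ →₀ ℕ) :
    ‖coeff r (f * g)‖ ≤ ∑ p ∈ antidiagonal r, ‖coeff p.1 f‖ * ‖coeff p.2 g‖ := by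
  classical
  rw [coeff_mul]
  refine (norm_sum_le _ _).trans (le_of_eq ?_)
  exact Finset.sum_congr rfl fun p _ => norm_mul _ _

lemma Sm.mul {f g : PS} (hf : Sm f) (hg : Sm g) : Sm (f * g) := by
  classical
  have h1 : Summable fun x : (ℕ →₀ ℕ) × (ℕ →₀ ℕ) => ‖coeff x.1 f‖ * ‖coeff x.2 g‖ :=
    Summable.mul_of_nonneg hf hg (fun _ => norm_nonneg _) fun _ => norm_nonneg _
  have h2 := summable_sum_mul_antidiagonal_of_summable_mul (f := fun r => ‖coeff r f‖)
    (g := fun r => ‖coeff r g‖) h1
  exact h2.of_nonneg_of_le (fun r => norm_nonneg _) fun r => coeff_mul_le f g r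

lemma nrm_mul {f g : PS} (hf : Sm f) (hg : Sm g) : nrm (f * g) ≤ nrm f * nrm g := by
  classical
  have h1 : Summable fun x : (ℕ →₀ ℕ) × (ℕ →₀ ℕ) => ‖coeff x.1 f‖ * ‖coeff x.2 g‖ :=
    Summable.mul_of_nonneg hf hg (fun _ => norm_nonneg _) fun _ => norm_nonneg _
  have h2 := summable_sum_mul_antidiagonal_of_summable_mul (f := fun r => ‖coeff r f‖)
    (g := fun r => ‖coeff r g‖) h1
  have h3 := Summable.tsum_mul_tsum_eq_tsum_sum_antidiagonal hf hg h1
  unfold nrm
  rw [h3]
  exact Summable.tsum_le_tsum (fun r => coeff_mul_le f g r) (hf.mul hg) h2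

/-- The homogeneous component. -/
noncomputable def hc (n : ℕ) : PS →ₗ[ℂ] PS := homogeneousComponent n

lemma coeff_hc (n : ℕ) (r : ℕ →₀ ℕ) (f : PS) :
    coeff r (hc n f) = if r.degree = n then coeff r f else 0 := coeff_homogeneousComponent n r f

lemma hc_ext {f g : PS} (h : ∀ n, hc n f = hc n g) : f = g := by
  ext r
  have h1 := congrArg (coeff r) (h r.degree)
  rw [coeff_hc, coeff_hc, if_pos rfl, if_pos rfl] at h1
  exact h1

lemma hc_mul (n : ℕ) (f g : PS) :
    hc n (f * g) = ∑ p ∈ antidiagonal n, hc p.1 f * hc p.2 g := by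
  classical
  ext r
  rw [coeff_hc, map_sum]
  have h1 : ∀ p ∈ antidiagonal n, coeff r (hc p.1 f * hc p.2 g) = ∑ q ∈ antidiagonal r,
      if q.1.degree = p.1 ∧ q.2.degree = p.2 then coeff q.1 f * coeff q.2 g else 0 := by
    intro p _
    rw [coeff_mul]
    refine Finset.sum_congr rfl fun q _ => ?_
    rw [coeff_hc, coeff_hc]
    by_cases h1 : q.1.degree = p.1
    · by_cases h2 : q.2.degree = p.2
      · rw [if_pos h1, if_pos h2, if_pos ⟨h1, h2⟩]
      · rw [if_neg h2, mul_zero, if_neg fun h => h2 h.2]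
    · rw [if_neg h1, zero_mul, if_neg fun h => h1 h.1]
  rw [Finset.sum_congr rfl h1, Finset.sum_comm]
  have h2 : ∀ q ∈ antidiagonal r, (∑ p ∈ antidiagonal n,
      if q.1.degree = p.1 ∧ q.2.degree = p.2 then coeff q.1 f * coeff q.2 g else 0)
      = if r.degree = n then coeff q.1 f * coeff q.2 g else 0 := by
    intro q hq
    have h3 : q.1 + q.2 = r := mem_antidiagonal.1 hq
    have h4 : q.1.degree + q.2.degree = r.degree := by rw [← map_add, h3]
    by_cases h5 : r.degree = n
    · rw [if_pos h5, Finset.sum_eq_single (q.1.degree, q.2.degree)]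
      · rw [if_pos ⟨rfl, rfl⟩]
      · intro p _ hp
        rw [if_neg]
        rintro ⟨h6, h7⟩
        exact hp (Prod.ext h6.symm h7.symm)
      · intro hp
        exact absurd (mem_antidiagonal.2 (h4.trans h5)) hp
    · rw [if_neg h5]
      refine Finset.sum_eq_zero fun p hp => ?_
      rw [if_neg]
      rintro ⟨h6, h7⟩
      have := mem_antidiagonal.1 hp
      omega
  rw [Finset.sum_congr rfl h2]
  split_ifs with h5
  · rw [coeff_mul]
  · rw [Finset.sum_const_zero]

/-- The homogeneous series with summable coefficients. -/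
def Hm (n : ℕ) : Submodule ℂ PS where
  carrier := {f | hc n f = f ∧ Sm f}
  add_mem' := by
    rintro f g ⟨h1, h2⟩ ⟨h3, h4⟩
    exact ⟨by rw [map_add, h1, h3], h2.add h4⟩
  zero_mem' := ⟨map_zero _, by
    unfold Sm
    simp only [map_zero, norm_zero]
    exact summable_zero⟩
  smul_mem' := by
    rintro a f ⟨h1, h2⟩
    exact ⟨by rw [map_smul, h1], h2.smul a⟩

lemma mem_Hm {n : ℕ} {f : PS} : f ∈ Hm n ↔ hc n f = f ∧ Sm f := Iff.rfl

lemma hc_of_mem {n : ℕ} {f : PS} (h : f ∈ Hm n) (m : ℕ) : hc m f = if n = m then f else 0 := by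
  split_ifs with hnm
  · subst hnm
    exact h.1
  · ext r
    rw [← h.1, coeff_hc, coeff_hc, map_zero]
    by_cases h1 : r.degree = m
    · rw [if_pos h1, if_neg (by omega)]
    · rw [if_neg h1]

lemma hom_iff {n : ℕ} {f : PS} : hc n f = f ↔ ∀ r, coeff r f ≠ 0 → r.degree = n := by
  constructor
  · intro h r hr
    by_contra hc'
    rw [← h, coeff_hc, if_neg hc'] at hr
    exact hr rfl
  · intro h
    ext r
    rw [coeff_hc]
    split_ifs with h1
    · rfl
    · by_contra h2
      exact h1 (h r (Ne.symm h2))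

lemma Sm.of_fin {f : PS} {s : Finset (ℕ →₀ ℕ)} (h : ∀ r ∉ s, coeff r f = 0) : Sm f := by
  apply summable_of_ne_finset_zero (s := s)
  intro r hr
  rw [h r hr, norm_zero]

lemma mul_mem_Hm {i j : ℕ} {f g : PS} (hf : f ∈ Hm i) (hg : g ∈ Hm j) : f * g ∈ Hm (i + j) := by
  classical
  refine ⟨?_, hf.2.mul hg.2⟩
  rw [hom_iff]
  intro r hr
  rw [coeff_mul] at hr
  obtain ⟨q, hq, hq0⟩ := Finset.exists_ne_zero_of_sum_ne_zero hr
  have h1 := hom_iff.1 hf.1 q.1 (left_ne_zero_of_mul hq0)
  have h2 := hom_iff.1 hg.1 q.2 (right_ne_zero_of_mul hq0)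
  rw [← mem_antidiagonal.1 hq, map_add, h1, h2]

lemma deg_single (i : ℕ) : (Finsupp.single i 1 : ℕ →₀ ℕ).degree = 1 := Finsupp.degree_single i 1

lemma X_mem (i : ℕ) : (X i : PS) ∈ Hm 1 := by
  classical
  constructor
  · rw [hom_iff]
    intro r hr
    rw [coeff_X] at hr
    split_ifs at hr with h
    · rw [h, deg_single]
    · exact absurd rfl hr
  · refine Sm.of_fin (s := {Finsupp.single i 1}) fun r hr => ?_
    rw [coeff_X, if_neg]
    intro h
    exact hr (by rw [h]; exact mem_singleton_self _)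

theorem grad : Gr Hm (fun i : ℕ => pderiv ℂ i) where
  one := by
    classical
    constructor
    · rw [hom_iff]
      intro r hr
      rw [coeff_one] at hr
      split_ifs at hr with h
      · rw [h, map_zero]
      · exact absurd rfl hr
    · refine Sm.of_fin (s := {0}) fun r hr => ?_
      rw [coeff_one, if_neg]
      intro h
      exact hr (by rw [h]; exact mem_singleton_self _)
  mul := mul_mem_Hm
  zero := by
    classical
    intro f hf
    refine ⟨coeff 0 f, ?_⟩
    rw [show algebraMap ℂ PS (coeff 0 f) = C (coeff 0 f) from rfl]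
    ext r
    rw [coeff_C]
    split_ifs with h
    · rw [h]
    · by_contra h1
      have h2 := hom_iff.1 hf.1 r h1
      exact h ((Finsupp.degree_eq_zero_iff r).1 h2)
  der := by
    intro i d f hf
    have h0 : ∀ r : ℕ →₀ ℕ, (r + Finsupp.single i 1).degree = r.degree + 1 := by
      intro r
      rw [map_add, deg_single]
    constructor
    · rw [hom_iff]
      intro r hr
      rw [coeff_pderiv] at hr
      have h1 := hom_iff.1 hf.1 _ (left_ne_zero_of_mul hr)
      rw [h0] at h1
      omega
    · have hinj : Function.Injective fun r : ℕ →₀ ℕ => r + Finsupp.single i 1 :=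
        fun a b h => add_right_cancel h
      have h1 : Summable fun r : ℕ →₀ ℕ => ((d : ℝ) + 1) * ‖coeff (r + Finsupp.single i 1) f‖ :=
        (Summable.comp_injective hf.2 hinj).mul_left _
      refine h1.of_nonneg_of_le (fun r => norm_nonneg _) fun r => ?_
      rw [coeff_pderiv, norm_mul, mul_comm]
      by_cases h2 : coeff (r + Finsupp.single i 1) f = 0
      · rw [h2, norm_zero, mul_zero, mul_zero]
      · gcongr
        have h3 := hom_iff.1 hf.1 _ h2
        rw [h0] at h3
        have h4 : r i ≤ r.degree := Finsupp.le_degree i r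
        rw [show ((r i : ℂ) + 1) = ((r i + 1 : ℕ) : ℂ) by push_cast; rfl, Complex.norm_natCast]
        have : r i + 1 ≤ d + 1 := by omega
        exact_mod_cast this
  ker := by
    intro d f hf h
    ext r
    rw [map_zero]
    by_contra hr
    have h1 := hom_iff.1 hf.1 r hr
    obtain ⟨i, hi⟩ : ∃ i, r i ≠ 0 := by
      by_contra hcc
      push Not at hcc
      rw [show r = 0 from Finsupp.ext hcc, map_zero] at h1
      omega
    have h2 := congrArg (coeff (r - Finsupp.single i 1)) (h i)
    rw [coeff_pderiv, Finsupp.sub_add_single_one_cancel hi, map_zero] at h2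
    exact (mul_ne_zero hr (Nat.cast_add_one_ne_zero _)) h2

lemma alg_inj : Function.Injective (algebraMap ℂ PS) := by
  intro a b h
  have h1 := congrArg (coeff (0 : ℕ →₀ ℕ)) h
  rwa [show algebraMap ℂ PS a = C a from rfl, show algebraMap ℂ PS b = C b from rfl,
    coeff_zero_C, coeff_zero_C] at h1

end Pool.Agent.Q193.FR
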